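import Mathlib

/-!
# Functions on `ℤ/N` with prescribed sums over the cosets of the subgroups of prime order

Let `N` be squarefree. A function `f` on `ℤ/N` is determined by its sums over the cosets of the
subgroups of order `p`, `p` the prime factors of `N`, and by its values at `0, 1, …, L - 1`, if
`L ≥ φ(N)`: the differences satisfy a linear recurrence of order at most `φ(N)`.
-/

set_option autoImplicit false

open Polynomial Finset

namespace Pool.Agent.N889.SN

variable {N : ℕ}

/-- the shift -/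
def sh (N : ℕ) : (ZMod N → ℂ) →ₗ[ℂ] (ZMod N → ℂ) where
  toFun f b := f (b + 1)
  map_add' f g := rfl
  map_smul' c f := rfl

lemma sh_pow (f : ZMod N → ℂ) (k : ℕ) (b : ZMod N) : ((sh N ^ k) f) b = f (b + k) := by
  induction k generalizing b with
  | zero => simp
  | succ k ih =>
    rw [pow_succ', Module.End.mul_apply]
    show ((sh N ^ k) f) (b + 1) = _
    rw [ih]
    congr 1
    push_cast
    ring

lemma aeval_sh (f : ZMod N → ℂ) (q : ℂ[X]) (b : ZMod N) :
    (aeval (sh N) q f) b = ∑ k ∈ range (q.natDegree + 1), q.coeff k * f (b + k) := by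
  rw [aeval_eq_sum_range, LinearMap.sum_apply, Finset.sum_apply]
  refine Finset.sum_congr rfl fun k _ => ?_
  rw [LinearMap.smul_apply, Pi.smul_apply, sh_pow, smul_eq_mul]

/-- the annihilator of `f` -/
def ann (f : ZMod N → ℂ) : Ideal ℂ[X] where
  carrier := {q | aeval (sh N) q f = 0}
  add_mem' := by
    intro a b ha hb
    simp only [Set.mem_ofPred_eq] at *
    rw [map_add, LinearMap.add_apply, ha, hb, add_zero]
  zero_mem' := by simp
  smul_mem' := by
    intro c q hq
    simp only [Set.mem_ofPred_eq, smul_eq_mul] at *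
    rw [map_mul, Module.End.mul_apply, hq, map_zero]

lemma mem_ann {f : ZMod N → ℂ} {q : ℂ[X]} : q ∈ ann f ↔ aeval (sh N) q f = 0 := Iff.rfl

/-- `1 + X^m + … + X^((p-1)m)` -/
noncomputable def Q (p m : ℕ) : ℂ[X] := ∑ j ∈ range p, X ^ (j * m)

lemma aeval_Q (f : ZMod N → ℂ) (p m : ℕ) (b : ZMod N) :
    (aeval (sh N) (Q p m) f) b = ∑ j ∈ range p, f (b + ((j * m : ℕ) : ZMod N)) := by
  unfold Q
  rw [map_sum, LinearMap.sum_apply, Finset.sum_apply]
  refine Finset.sum_congr rfl fun j _ => ?_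
  rw [map_pow, aeval_X, sh_pow]

lemma Q_mul (p m : ℕ) : Q p m * (X ^ m - 1) = X ^ (p * m) - 1 := by
  unfold Q
  have h := geom_sum_mul (X ^ m : ℂ[X]) p
  rw [← pow_mul, mul_comm m p] at h
  rw [← h]
  congr 1
  refine Finset.sum_congr rfl fun j _ => ?_
  rw [← pow_mul, mul_comm]

lemma Q_eval_one {p m : ℕ} {ζ : ℂ} (h : ζ ^ m = 1) : (Q p m).eval ζ = p := by
  unfold Q
  rw [eval_finsetSum]
  have : ∀ j ∈ range p, (X ^ (j * m) : ℂ[X]).eval ζ = 1 := by
    intro j _
    rw [eval_pow, eval_X, mul_comm, pow_mul, h, one_pow]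
  rw [Finset.sum_congr rfl this]
  simp

/-- the key lemma: a function all of whose sums over the cosets of the subgroups of prime order vanish, and which
vanishes at `0, …, L - 1` with `L ≥ φ(N)`, is zero -/
theorem eq_zero (hN : 0 < N) (f : ZMod N → ℂ) (L : ℕ) (hL : Nat.totient N ≤ L)
    (hs : ∀ p, p.Prime → p ∣ N → ∀ b : ZMod N, ∑ j ∈ range p, f (b + ((j * (N / p) : ℕ) : ZMod N)) = 0)
    (h1 : N ≠ 1) (h0 : ∀ i < L, f (i : ZMod N) = 0) : f = 0 := by
  classical
  have : NeZero N := ⟨hN.ne'⟩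
  set g := Submodule.IsPrincipal.generator (ann f) with hg
  have hQ : ∀ p, p.Prime → p ∣ N → g ∣ Q p (N / p) := by
    intro p hp hpN
    rw [hg, ← Submodule.IsPrincipal.mem_iff_generator_dvd, mem_ann]
    funext b
    rw [aeval_Q]
    exact hs p hp hpN b
  -- there is a prime factor
  obtain ⟨p₀, hp₀, hp₀N⟩ := Nat.exists_prime_and_dvd h1
  have hgN : g ∣ X ^ N - 1 := by
    have h2 := Q_mul p₀ (N / p₀)
    rw [Nat.mul_div_cancel' hp₀N] at h2
    rw [← h2]
    exact (hQ p₀ hp₀ hp₀N).mul_right _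
  have hXN : (X ^ N - 1 : ℂ[X]) ≠ 0 := X_pow_sub_C_ne_zero hN 1
  have hg0 : g ≠ 0 := fun h => hXN (by rw [h] at hgN; exact zero_dvd_iff.1 hgN)
  -- the roots
  have hsep : (X ^ N - 1 : ℂ[X]).Separable := by
    have := separable_X_pow_sub_C (1 : ℂ) (n := N) (by exact_mod_cast hN.ne') one_ne_zero
    simpa using this
  have hgsep : g.Separable := hsep.of_dvd hgN
  have hroots : g.roots.toFinset ⊆ primitiveRoots N ℂ := by
    intro ζ hζ
    rw [Multiset.mem_toFinset, mem_roots hg0] at hζ
    rw [mem_primitiveRoots hN]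
    have hζN : ζ ^ N = 1 := by
      have h2 : (X ^ N - 1 : ℂ[X]).eval ζ = 0 := by
        obtain ⟨c, hc⟩ := hgN
        rw [hc, eval_mul, hζ, zero_mul]
      rw [eval_sub, eval_pow, eval_X, eval_one] at h2
      linear_combination h2
    have hne : ∀ p, p.Prime → p ∣ N → ζ ^ (N / p) ≠ 1 := by
      intro p hp hpN h2
      have h3 : (Q p (N / p)).eval ζ = 0 := by
        obtain ⟨c, hc⟩ := hQ p hp hpN
        rw [hc, eval_mul, hζ, zero_mul]
      rw [Q_eval_one h2] at h3
      exact hp.ne_zero (by exact_mod_cast h3)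
    have hord : orderOf ζ = N := by
      refine orderOf_eq_of_pow_and_pow_div_prime hN hζN fun p hp hpN => hne p hp hpN
    rw [← hord]
    exact IsPrimitiveRoot.orderOf ζ
  have hdeg : g.natDegree ≤ L := by
    have h2 : g.natDegree = g.roots.card := IsAlgClosed.card_roots_eq_natDegree.symm
    have h3 : g.roots.toFinset.card = g.roots.card :=
      Multiset.toFinset_card_of_nodup (nodup_roots hgsep)
    have h4 := Finset.card_le_card hroots
    rw [Complex.card_primitiveRoots] at h4
    omega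
  -- the recurrence
  have hrec : ∀ b : ZMod N, ∑ k ∈ range (g.natDegree + 1), g.coeff k * f (b + k) = 0 := by
    intro b
    have h2 : g ∈ ann f := Submodule.IsPrincipal.generator_mem _
    rw [mem_ann] at h2
    rw [← aeval_sh, h2]
    rfl
  have hlead : g.coeff g.natDegree ≠ 0 := by
    rw [coeff_natDegree]
    exact leadingCoeff_ne_zero.2 hg0
  have hall : ∀ n : ℕ, f (n : ZMod N) = 0 := by
    intro n
    induction n using Nat.strong_induction_on with
    | _ n ih =>
      by_cases hn : n < L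
      · exact h0 n hn
      · have hm : g.natDegree ≤ n := by omega
        have h2 := hrec ((n - g.natDegree : ℕ) : ZMod N)
        rw [Finset.sum_range_succ] at h2
        have h3 : ∑ k ∈ range g.natDegree, g.coeff k * f (((n - g.natDegree : ℕ) : ZMod N) + k) = 0 := by
          refine Finset.sum_eq_zero fun k hk => ?_
          rw [Finset.mem_range] at hk
          have h4 : f (((n - g.natDegree + k : ℕ)) : ZMod N) = 0 := ih _ (by omega)
          rw [Nat.cast_add] at h4
          rw [h4, mul_zero]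
        rw [h3, zero_add] at h2
        have h5 : (((n - g.natDegree : ℕ) : ZMod N) + (g.natDegree : ZMod N)) = (n : ZMod N) := by
          rw [← Nat.cast_add, Nat.sub_add_cancel hm]
        rw [h5] at h2
        exact (mul_eq_zero.1 h2).resolve_left hlead
  funext b
  have h2 := hall b.val
  rw [ZMod.natCast_zmod_val] at h2
  rw [h2]
  rfl

/-- the sums over the cosets and the first values -/
noncomputable def Lam (N L : ℕ) : (ZMod N → ℂ) →ₗ[ℂ] (N.primeFactors × ZMod N → ℂ) × (Fin L → ℂ) where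
  toFun f := (fun x => ∑ j ∈ range (x.1 : ℕ), f (x.2 + ((j * (N / x.1) : ℕ) : ZMod N)), fun i => f ((i : ℕ) : ZMod N))
  map_add' f g := by
    ext <;> simp [Finset.sum_add_distrib]
  map_smul' c f := by
    ext <;> simp [Finset.mul_sum]

/-- **Quantitative form.** -/
theorem exists_bound (hN : 0 < N) (h1 : N ≠ 1) (L : ℕ) (hL : Nat.totient N ≤ L) :
    ∃ C : ℝ, 0 < C ∧ ∀ (f : ZMod N → ℂ) (H : ℝ), 0 ≤ H →
      (∀ p, p.Prime → p ∣ N → ∀ b : ZMod N, ‖∑ j ∈ range p, f (b + ((j * (N / p) : ℕ) : ZMod N))‖ ≤ H) →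
      (∀ i < L, ‖f (i : ZMod N)‖ ≤ H) → ∀ b, ‖f b‖ ≤ C * H := by
  classical
  have : NeZero N := ⟨hN.ne'⟩
  have hker : LinearMap.ker (Lam N L) = ⊥ := by
    rw [LinearMap.ker_eq_bot']
    intro f hf
    have h2 := congrArg Prod.fst hf
    have h3 := congrArg Prod.snd hf
    refine eq_zero hN f L hL (fun p hp hpN b => ?_) h1 (fun i hi => ?_)
    · have := congrFun h2 (⟨p, by rw [Nat.mem_primeFactors]; exact ⟨hp, hpN, hN.ne'⟩⟩, b)
      simpa [Lam] using this
    · have := congrFun h3 ⟨i, hi⟩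
      simpa [Lam] using this
  obtain ⟨K, hK0, hK⟩ := (Lam N L).exists_antilipschitzWith hker
  refine ⟨K, by exact_mod_cast hK0, fun f H hH hs h0 b => ?_⟩
  have h2 : ‖f‖ ≤ K * ‖Lam N L f‖ := by
    have := hK.le_mul_dist f 0
    rwa [map_zero, dist_zero_right, dist_zero_right] at this
  have h3 : ‖Lam N L f‖ ≤ H := by
    rw [Prod.norm_def, max_le_iff]
    constructor
    · rw [pi_norm_le_iff_of_nonneg hH]
      rintro ⟨⟨p, hp⟩, b⟩
      rw [Nat.mem_primeFactors] at hp
      exact hs p hp.1 hp.2.1 b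
    · rw [pi_norm_le_iff_of_nonneg hH]
      rintro ⟨i, hi⟩
      exact h0 i hi
  calc ‖f b‖ ≤ ‖f‖ := norm_le_pi_norm f b
    _ ≤ K * ‖Lam N L f‖ := h2
    _ ≤ K * H := mul_le_mul_of_nonneg_left h3 (NNReal.coe_nonneg K)

end Pool.Agent.N889.SN
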