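import Mathlib

/-!
# Counting the translates of a point in a Siegel set, unfolding
-/

set_option autoImplicit false

open UpperHalfPlane MeasureTheory ModularGroup
open scoped Modular MatrixGroups ENNReal

namespace Pool.Agent.N889.SN

/-- the Siegel set -/
def Sieg (a R : ℕ) : Set ℍ := {z | 1 / (a : ℝ) ≤ z.im ∧ |z.re| ≤ R}

lemma det_eq (g : SL(2, ℤ)) : g 0 0 * g 1 1 - g 0 1 * g 1 0 = 1 := by
  have := g.det_coe
  rwa [Matrix.det_fin_two] at this

lemma normSq_den (g : SL(2, ℤ)) (z : ℍ) :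
    Complex.normSq (denom g z) = ((g 1 0 : ℝ) * z.re + g 1 1) ^ 2 + ((g 1 0 : ℝ) * z.im) ^ 2 := by
  rw [ModularGroup.denom_apply, Complex.normSq_apply]
  simp
  ring

/-- equal rows and equal integral parts -/
lemma eq_of_rows {g h : SL(2, ℤ)} {z : ℍ} (hc : g 1 0 = h 1 0) (hd : g 1 1 = h 1 1)
    (hf : ⌊(g • z).re⌋ = ⌊(h • z).re⌋) : g = h := by
  have d1 := det_eq g
  have d2 := det_eq h
  rw [← hc, ← hd] at d2
  obtain ⟨k, hk⟩ : ∃ k : ℤ, k = g 0 1 * h 0 0 - g 0 0 * h 0 1 := ⟨_, rfl⟩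
  have e1 : g 0 0 = h 0 0 + k * g 1 0 := by rw [hk]; linear_combination (-(g 0 0)) * d2 + h 0 0 * d1
  have e2 : g 0 1 = h 0 1 + k * g 1 1 := by rw [hk]; linear_combination (-(g 0 1)) * d2 + h 0 1 * d1
  have hgh : ((g • z : ℍ) : ℂ) = ((h • z : ℍ) : ℂ) + k := by
    rw [coe_specialLinearGroup_apply, coe_specialLinearGroup_apply]
    have hden : ((g 1 0 : ℂ)) * z + (g 1 1 : ℂ) ≠ 0 := by
      have := denom_ne_zero (g : GL (Fin 2) ℝ) z
      simpa [denom] using this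
    simp only [algebraMap_int_eq, eq_intCast, Complex.ofReal_intCast]
    rw [← hc, ← hd, div_add' _ _ _ hden, e1, e2]
    congr 1
    push_cast
    ring
  have hre : (g • z).re = (h • z).re + k := by
    have := congrArg Complex.re hgh
    simpa using this
  rw [hre, Int.floor_add_intCast] at hf
  have hk0 : k = 0 := by omega
  rw [hk0, zero_mul, add_zero] at e1 e2
  ext i j
  fin_cases i <;> fin_cases j
  · exact e1
  · exact e2
  · exact hc
  · exact hd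

theorem count (a R : ℕ) (ha : 1 ≤ a) : ∃ M : ℕ, ∀ z ∈ 𝒟, {g : SL(2, ℤ) | g • z ∈ Sieg a R}.encard ≤ M := by
  classical
  let B : Finset (ℤ × ℤ × ℤ) := Finset.Icc (-(2 * a : ℤ)) (2 * a) ×ˢ Finset.Icc (-(2 * a : ℤ)) (2 * a) ×ˢ
    Finset.Icc (-(R : ℤ) - 1) R
  refine ⟨B.card, fun z hz => ?_⟩
  have ha' : (1 : ℝ) ≤ a := by exact_mod_cast ha
  have ha0 : (0 : ℝ) < a := by linarith
  have hy := three_le_four_mul_im_sq_of_mem_fd hz
  have hy0 : 0 < z.im := z.im_pos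
  have hy1 : 1 / 2 ≤ z.im := by nlinarith
  have hx : |z.re| ≤ 1 / 2 := hz.2
  have hmaps : Set.MapsTo (fun g : SL(2, ℤ) => (g 1 0, g 1 1, ⌊(g • z).re⌋))
      {g : SL(2, ℤ) | g • z ∈ Sieg a R} (B : Set (ℤ × ℤ × ℤ)) := by
    rintro g ⟨h1, h2⟩
    rw [ModularGroup.im_smul_eq_div_normSq, div_le_div_iff₀ ha0 (Complex.normSq_pos.2 (denom_ne_zero _ _)),
      normSq_den, one_mul] at h1
    have hc2 : ((g 1 0 : ℝ)) ^ 2 * z.im ≤ a := by
      have h3 : ((g 1 0 : ℝ)) ^ 2 * z.im * z.im ≤ a * z.im := by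
        nlinarith [sq_nonneg ((g 1 0 : ℝ) * z.re + g 1 1)]
      exact le_of_mul_le_mul_right h3 hy0
    have hc3 : ((g 1 0 : ℝ)) ^ 2 ≤ 2 * a := by nlinarith [sq_nonneg (g 1 0 : ℝ)]
    have hc4 : |g 1 0| ≤ 2 * a := by
      have h3 : (g 1 0) ^ 2 ≤ 2 * a := by exact_mod_cast hc3
      by_contra hlt
      rw [not_le] at hlt
      have h4 : |g 1 0| ^ 2 = (g 1 0) ^ 2 := sq_abs _
      have h5 : (1 : ℤ) ≤ a := by exact_mod_cast ha
      nlinarith
    have hd4 : |g 1 1| ≤ 2 * a := by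
      by_cases hc : g 1 0 = 0
      · have h3 := det_eq g
        rw [hc, mul_zero, sub_zero] at h3
        have h4 : |g 1 1| = 1 := Int.isUnit_iff_abs_eq.1 ⟨⟨g 1 1, g 0 0, by linarith, by linarith⟩, rfl⟩
        rw [h4]
        have h5 : (1 : ℤ) ≤ a := by exact_mod_cast ha
        linarith
      · have h3 : (1 : ℝ) ≤ (g 1 0 : ℝ) ^ 2 := by
          have : 1 ≤ (g 1 0) ^ 2 := by
            have := sq_pos_of_ne_zero hc
            omega
          exact_mod_cast this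
        have h4 : z.im ≤ a := by nlinarith
        have h5 : ((g 1 0 : ℝ) * z.re + g 1 1) ^ 2 ≤ (a : ℝ) ^ 2 := by
          have : 0 ≤ ((g 1 0 : ℝ) * z.im) ^ 2 := sq_nonneg _
          nlinarith
        have h6 : |(g 1 0 : ℝ) * z.re + g 1 1| ≤ a := abs_le_of_sq_le_sq h5 ha0.le
        have h7 : |(g 1 0 : ℝ) * z.re| ≤ a := by
          rw [abs_mul]
          have h8 : |(g 1 0 : ℝ)| ≤ 2 * a := by exact_mod_cast hc4
          nlinarith [abs_nonneg (g 1 0 : ℝ), abs_nonneg z.re]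
        have h9 : |(g 1 1 : ℝ)| ≤ 2 * a := by
          have h10 : (g 1 1 : ℝ) = ((g 1 0 : ℝ) * z.re + g 1 1) - (g 1 0 : ℝ) * z.re := by ring
          rw [h10]
          exact (abs_sub _ _).trans (by linarith)
        exact_mod_cast h9
    have hf : -(R : ℤ) - 1 ≤ ⌊(g • z).re⌋ ∧ ⌊(g • z).re⌋ ≤ R := by
      obtain ⟨h3, h4⟩ := abs_le.1 h2
      constructor
      · rw [Int.le_floor]
        push_cast
        linarith
      · have h5 := Int.floor_le (g • z).re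
        have h6 : ((⌊(g • z).re⌋ : ℤ) : ℝ) ≤ ((R : ℤ) : ℝ) := by
          push_cast
          linarith
        exact_mod_cast h6
    rw [Finset.mem_coe, Finset.mem_product, Finset.mem_product, Finset.mem_Icc, Finset.mem_Icc, Finset.mem_Icc]
    exact ⟨abs_le.1 hc4, abs_le.1 hd4, hf⟩
  have hinj : Set.InjOn (fun g : SL(2, ℤ) => (g 1 0, g 1 1, ⌊(g • z).re⌋))
      {g : SL(2, ℤ) | g • z ∈ Sieg a R} := by
    intro g _ h _ heq
    simp only [Prod.mk.injEq] at heq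
    exact eq_of_rows heq.1 heq.2.1 heq.2.2
  have h1 := Set.encard_le_encard_of_injOn hmaps hinj
  rwa [Set.encard_coe_eq_coe_finsetCard] at h1

lemma measurableSet_fd : MeasurableSet (𝒟 : Set ℍ) := isClosed_fd.measurableSet

lemma measurableSet_sieg (a R : ℕ) : MeasurableSet (Sieg a R) := by
  have h1 : IsClosed {z : ℍ | 1 / (a : ℝ) ≤ z.im} := isClosed_le continuous_const UpperHalfPlane.continuous_im
  have h2 : IsClosed {z : ℍ | |z.re| ≤ R} := isClosed_le (UpperHalfPlane.continuous_re.abs) continuous_const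
  exact (h1.inter h2).measurableSet

lemma mp (g : GL (Fin 2) ℝ) : MeasurePreserving (fun z : ℍ => g • z) volume volume :=
  measurePreserving_smul g volume

instance : Countable SL(2, ℤ) := by
  have : Countable (Matrix (Fin 2) (Fin 2) ℤ) := inferInstanceAs (Countable (Fin 2 → Fin 2 → ℤ))
  exact Subtype.countable

/-- unfolding -/
theorem unfold_le (φ : ℍ → ℝ≥0∞) (hφ : Measurable φ) (hinv : ∀ (g : SL(2, ℤ)) (z : ℍ), φ (g • z) = φ z)
    (A : Set ℍ) (hA : MeasurableSet A) (M : ℕ) (hM : ∀ z ∈ 𝒟, {g : SL(2, ℤ) | g • z ∈ A}.encard ≤ M) :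
    ∫⁻ z in A, φ z ≤ M * ∫⁻ z in 𝒟, φ z := by
  classical
  have hsm : ∀ g : SL(2, ℤ), Measurable (fun z : ℍ => g • z) := fun g =>
    (mp ((g : SL(2, ℤ)) : GL (Fin 2) ℝ)).measurable
  let ψ : SL(2, ℤ) → ℍ → ℝ≥0∞ := fun g => Set.indicator 𝒟 (fun z => A.indicator 1 (g • z) * φ z)
  have hψ : ∀ g, Measurable (ψ g) := fun g =>
    (((measurable_one.indicator hA).comp (hsm g)).mul hφ).indicator measurableSet_fd
  have h1 : ∀ z, A.indicator φ z ≤ ∑' g : SL(2, ℤ), ψ g (g⁻¹ • z) := by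
    intro z
    by_cases hz : z ∈ A
    · obtain ⟨g₀, hg₀⟩ := exists_smul_mem_fd z
      refine le_trans (le_of_eq ?_) (ENNReal.le_tsum g₀⁻¹)
      rw [Set.indicator_of_mem hz]
      simp only [ψ, inv_inv]
      rw [Set.indicator_of_mem hg₀, inv_smul_smul, Set.indicator_of_mem hz, hinv]
      simp
    · rw [Set.indicator_of_notMem hz]
      exact bot_le
  have h2 : ∀ g : SL(2, ℤ), ∫⁻ z, ψ g (g⁻¹ • z) = ∫⁻ z, ψ g z := fun g =>
    (mp ((g⁻¹ : SL(2, ℤ)) : GL (Fin 2) ℝ)).lintegral_comp (hψ g)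
  have h3 : ∀ z, ∑' g : SL(2, ℤ), ψ g z ≤ Set.indicator 𝒟 (fun z => (M : ℝ≥0∞) * φ z) z := by
    intro z
    by_cases hz : z ∈ 𝒟
    · have e : ∀ g, ψ g z = ({g : SL(2, ℤ) | g • z ∈ A}.indicator 1 g : ℝ≥0∞) * φ z := by
        intro g
        simp only [ψ]
        rw [Set.indicator_of_mem hz]
        congr 1
      rw [tsum_congr e, ENNReal.tsum_mul_right, Set.indicator_of_mem hz]
      gcongr
      rw [← tsum_subtype {g : SL(2, ℤ) | g • z ∈ A} (1 : SL(2, ℤ) → ℝ≥0∞)]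
      simp only [Pi.one_apply]
      rw [ENNReal.tsum_set_one]
      exact_mod_cast hM z hz
    · rw [Set.indicator_of_notMem hz]
      refine le_of_eq ?_
      rw [ENNReal.tsum_eq_zero]
      intro g
      simp only [ψ]
      rw [Set.indicator_of_notMem hz]
  calc ∫⁻ z in A, φ z = ∫⁻ z, A.indicator φ z := (lintegral_indicator hA _).symm
    _ ≤ ∫⁻ z, ∑' g : SL(2, ℤ), ψ g (g⁻¹ • z) := lintegral_mono h1
    _ = ∑' g : SL(2, ℤ), ∫⁻ z, ψ g (g⁻¹ • z) :=
        lintegral_tsum fun g => ((hψ g).comp (hsm g⁻¹)).aemeasurable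
    _ = ∑' g : SL(2, ℤ), ∫⁻ z, ψ g z := tsum_congr h2
    _ = ∫⁻ z, ∑' g : SL(2, ℤ), ψ g z := (lintegral_tsum fun g => (hψ g).aemeasurable).symm
    _ ≤ ∫⁻ z, Set.indicator 𝒟 (fun z => (M : ℝ≥0∞) * φ z) z := lintegral_mono h3
    _ = ∫⁻ z in 𝒟, (M : ℝ≥0∞) * φ z := lintegral_indicator measurableSet_fd _
    _ = M * ∫⁻ z in 𝒟, φ z := lintegral_const_mul _ hφ

end Pool.Agent.N889.SN
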