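import Mathlib

/-!
# Numbers with large prime factors and a small value of `φ(N) / N`
-/

set_option autoImplicit false

open Finset Filter

namespace Pool.Agent.N889.SN

theorem exists_N (δ : ℝ) (hδ : 0 < δ) (P₀ : ℕ) :
    ∃ N : ℕ, 0 < N ∧ N ≠ 1 ∧ (∀ p, p.Prime → p ∣ N → P₀ ≤ p) ∧ (Nat.totient N : ℝ) ≤ δ * N := by
  classical
  set δ' : ℝ := min δ (1 / 2) with hδ'
  have hδ'0 : 0 < δ' := lt_min hδ (by norm_num)
  let f : ℕ → ℝ := fun n => if n.Prime ∧ P₀ ≤ n then 1 / (n : ℝ) else 0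
  have hf0 : ∀ n, 0 ≤ f n := by
    intro n
    simp only [f]
    split_ifs
    · positivity
    · exact le_rfl
  have hns : ¬ Summable f := by
    intro hs
    apply not_summable_one_div_on_primes
    refine (summable_nat_add_iff P₀).1 ?_
    have h2 := (summable_nat_add_iff P₀).2 hs
    convert h2 using 2 with n
    simp only [f, Set.indicator]
    by_cases h : (n + P₀).Prime
    · have h3 : n + P₀ ∈ {p : ℕ | p.Prime} := h
      rw [if_pos h3, if_pos ⟨h, by omega⟩]
    · have h3 : ¬ (n + P₀ ∈ {p : ℕ | p.Prime}) := h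
      rw [if_neg h3, if_neg (fun h4 => h h4.1)]
  have ht := (not_summable_iff_tendsto_nat_atTop_of_nonneg hf0).1 hns
  obtain ⟨n, hn⟩ := (ht.eventually_ge_atTop (-Real.log δ')).exists
  set s : Finset ℕ := (range n).filter (fun p => p.Prime ∧ P₀ ≤ p) with hs
  have hsp : ∀ p ∈ s, p.Prime := fun p hp => (Finset.mem_filter.1 hp).2.1
  have hsum : ∑ p ∈ s, 1 / (p : ℝ) = ∑ i ∈ range n, f i := by
    rw [hs, Finset.sum_filter]
  set N : ℕ := ∏ p ∈ s, p with hN
  have hpf : N.primeFactors = s := Nat.primeFactors_prod hsp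
  have hN0 : 0 < N := Finset.prod_pos fun p hp => (hsp p hp).pos
  have htot : (Nat.totient N : ℝ) = N * ∏ p ∈ s, (1 - (p : ℝ)⁻¹) := by
    have h2 := Nat.totient_eq_mul_prod_factors N
    rw [hpf] at h2
    have h3 : ((Nat.totient N : ℚ) : ℝ) = ((N * ∏ p ∈ s, (1 - (p : ℚ)⁻¹) : ℚ) : ℝ) := by rw [h2]
    push_cast at h3
    exact h3
  have hprod : ∏ p ∈ s, (1 - (p : ℝ)⁻¹) ≤ δ' := by
    calc ∏ p ∈ s, (1 - (p : ℝ)⁻¹) ≤ ∏ p ∈ s, Real.exp (-(1 / (p : ℝ))) := by
          refine Finset.prod_le_prod (fun p hp => ?_) (fun p hp => ?_)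
          · have h1 : (1 : ℝ) ≤ p := by exact_mod_cast (hsp p hp).one_lt.le
            have := inv_le_one_of_one_le₀ h1
            linarith
          · have := Real.add_one_le_exp (-(1 / (p : ℝ)))
            rw [one_div] at this ⊢
            linarith
      _ = Real.exp (-∑ p ∈ s, 1 / (p : ℝ)) := by
          rw [← Real.exp_sum, Finset.sum_neg_distrib]
      _ ≤ Real.exp (Real.log δ') := by
          apply Real.exp_le_exp.2
          rw [hsum]
          linarith
      _ = δ' := Real.exp_log hδ'0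
  have hN0' : (0 : ℝ) < N := by exact_mod_cast hN0
  refine ⟨N, hN0, ?_, ?_, ?_⟩
  · intro h1
    rw [h1] at htot
    have h2 : δ' ≤ 1 / 2 := min_le_right _ _
    simp at htot
    linarith
  · intro p hp hpN
    have : p ∈ N.primeFactors := Nat.mem_primeFactors.2 ⟨hp, hpN, hN0.ne'⟩
    rw [hpf, hs, Finset.mem_filter] at this
    exact this.2.2
  · rw [htot, mul_comm δ]
    exact mul_le_mul_of_nonneg_left (hprod.trans (min_le_left _ _)) hN0'.le

end Pool.Agent.N889.SN
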