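import Mathlib
import Pool.Agent.N889.SN.Alg
import Pool.Agent.N889.SN.Sel

/-!
# Horocycles: bounded periodic functions with the Hecke relations for primes
-/

set_option autoImplicit false

open Finset Filter

namespace Pool.Agent.N889.SN

/-- functions on the upper half-plane with period one which are eigenfunctions of the Hecke operators `T_p`, with
eigenvalues at most `K p` (`T_p` is not normalised) -/
structure Per (K : ℕ → ℝ) (U : ℂ → ℂ) : Prop where
  per : ∀ z : ℂ, 0 < z.im → U (z + 1) = U z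
  hecke : ∀ p : ℕ, p.Prime → ∃ c : ℂ, ‖c‖ ≤ K p ∧ ∀ z : ℂ, 0 < z.im →
    U (p * z) + ∑ b ∈ range p, U ((z + b) / p) = c * U z

variable {K : ℕ → ℝ} {U : ℂ → ℂ}

lemma Per.nat (h : Per K U) (n : ℕ) {z : ℂ} (hz : 0 < z.im) : U (z + n) = U z := by
  induction n with
  | zero => simp
  | succ n ih =>
    push_cast
    rw [← add_assoc, h.per (z + n) (by simpa using hz), ih]

lemma Per.int (h : Per K U) (n : ℤ) {z : ℂ} (hz : 0 < z.im) : U (z + n) = U z := by
  obtain ⟨m, rfl | rfl⟩ := n.eq_nat_or_neg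
  · exact_mod_cast h.nat m hz
  · have h2 := h.nat m (z := z + ((-(m : ℤ) : ℤ) : ℂ)) (by simpa using hz)
    rw [← h2]
    congr 1
    push_cast
    ring

/-- the sum over the points `z + j / p` of the horocycle -/
lemma Per.line (h : Per K U) {p : ℕ} (hp : p.Prime) {z : ℂ} (hz : 0 < z.im) :
    ‖∑ j ∈ range p, U (z + (j : ℂ) / p)‖ ≤ K p * ‖U (p * z)‖ + ‖U (p * (p * z))‖ := by
  obtain ⟨c, hb, hc⟩ := h.hecke p hp
  have hp0 : (0 : ℝ) < p := by exact_mod_cast hp.pos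
  have hpc : (p : ℂ) ≠ 0 := by exact_mod_cast hp.ne_zero
  have him : 0 < ((p : ℂ) * z).im := by
    have e : ((p : ℂ) * z).im = p * z.im := by simp
    rw [e]
    positivity
  have h1 := hc (p * z) him
  have h2 : ∑ j ∈ range p, U (z + (j : ℂ) / p) = c * U (p * z) - U (p * (p * z)) := by
    rw [← h1, add_sub_cancel_left]
    refine Finset.sum_congr rfl fun j _ => ?_
    congr 1
    field_simp
  rw [h2]
  calc ‖c * U (p * z) - U (p * (p * z))‖ ≤ ‖c * U (p * z)‖ + ‖U (p * (p * z))‖ := norm_sub_le _ _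
    _ ≤ _ := by
      rw [norm_mul]
      gcongr

/-- **Horocycles.** -/
theorem horo (K : ℕ → ℝ) (hK : ∀ p, 0 ≤ K p) (δ y₀ Y : ℝ) (hδ : 0 < δ) (hy₀ : 0 < y₀) :
    ∃ C Y₂ : ℝ, 0 < C ∧ ∀ U : ℂ → ℂ, Per K U →
    ∀ (z : ℂ) (ξ : ℝ), y₀ ≤ z.im → z.im ≤ Y → ∃ w : ℂ, ‖U z‖ ≤ C * ‖U w‖ ∧
      ((w.im = z.im ∧ ξ ≤ w.re ∧ w.re ≤ ξ + δ) ∨ (Y ≤ w.im ∧ w.im ≤ Y₂)) := by
  classical
  obtain ⟨N, hN0, hN1, hNP, hNt⟩ := exists_N δ hδ (⌈Y / y₀⌉₊)
  set L : ℕ := ⌊δ * N⌋₊ with hL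
  have hLt : Nat.totient N ≤ L := Nat.le_floor hNt
  have hNr : (0 : ℝ) < N := by exact_mod_cast hN0
  have hNc : (N : ℂ) ≠ 0 := by exact_mod_cast hN0.ne'
  have hLN : (L : ℝ) ≤ δ * N := Nat.floor_le (by positivity)
  obtain ⟨C₀, hC₀, hbound⟩ := exists_bound hN0 hN1 L hLt
  have : NeZero N := ⟨hN0.ne'⟩
  obtain ⟨κ, hκ⟩ : ∃ κ, κ = ∑ p ∈ N.primeFactors, K p := ⟨_, rfl⟩
  have hκ0 : 0 ≤ κ := by rw [hκ]; exact Finset.sum_nonneg fun p _ => hK p
  have hκp : ∀ p, p.Prime → p ∣ N → K p ≤ κ := fun p hp hpN => by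
    rw [hκ]
    exact Finset.single_le_sum (fun q _ => hK q) (Nat.mem_primeFactors.2 ⟨hp, hpN, hN0.ne'⟩)
  set C : ℝ := C₀ * (κ + 1) + 1 with hC
  have hC1 : 0 < C := by positivity
  refine ⟨C, N * (N * Y), hC1, fun U hU z ξ hz1 hz2 => ?_⟩
  have hz : 0 < z.im := by linarith
  have hY : 0 < Y := by linarith
  by_contra hcon
  push Not at hcon
  -- the value at `z` is not zero
  have hUz : 0 < ‖U z‖ := by
    by_contra h0
    have h1 : ‖U z‖ = 0 := le_antisymm (not_lt.1 h0) (norm_nonneg _)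
    have h2 := hcon (⟨ξ, z.im⟩ : ℂ) (by rw [h1]; positivity)
    exact h2.1 rfl le_rfl |>.not_ge (by linarith)
  have hUz0 : U z ≠ 0 := norm_pos_iff.1 hUz
  have hadm : ∀ w : ℂ, ((w.im = z.im ∧ ξ ≤ w.re ∧ w.re ≤ ξ + δ) ∨ (Y ≤ w.im ∧ w.im ≤ N * (N * Y))) →
      ‖U w‖ ≤ ‖U z‖ / C := by
    intro w hw
    by_contra hlt
    rw [not_le, div_lt_iff₀ hC1, mul_comm] at hlt
    have h2 := hcon w hlt.le
    rcases hw with ⟨h3, h4, h5⟩ | ⟨h3, h4⟩
    · exact (h2.1 h3 h4).not_ge h5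
    · exact (h2.2 h3).not_ge h4
  -- the points on the horocycle
  set b₀ : ℤ := ⌈(N : ℝ) * (ξ - z.re)⌉ with hb₀
  let pt : ℤ → ℂ := fun k => z + ((b₀ + k : ℤ) : ℂ) / N
  have hpt_im : ∀ k, (pt k).im = z.im := by
    intro k
    have e : ((((b₀ + k : ℤ) : ℂ)) / (N : ℂ)).im = 0 := by
      rw [show ((b₀ + k : ℤ) : ℂ) = (((b₀ + k : ℤ) : ℝ) : ℂ) by norm_cast,
        show (N : ℂ) = ((N : ℝ) : ℂ) by norm_cast, ← Complex.ofReal_div, Complex.ofReal_im]
    show (z + _).im = _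
    rw [Complex.add_im, e, add_zero]
  have hpt_re : ∀ k, (pt k).re = z.re + (b₀ + k) / N := by
    intro k
    have e : ((((b₀ + k : ℤ) : ℂ)) / (N : ℂ)).re = (b₀ + k) / N := by
      rw [show ((b₀ + k : ℤ) : ℂ) = (((b₀ + k : ℤ) : ℝ) : ℂ) by norm_cast,
        show (N : ℂ) = ((N : ℝ) : ℂ) by norm_cast, ← Complex.ofReal_div, Complex.ofReal_re]
      push_cast
      rfl
    show (z + _).re = _
    rw [Complex.add_re, e]
  have hpt_pos : ∀ k, 0 < (pt k).im := fun k => by rw [hpt_im]; exact hz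
  have hper : ∀ k m : ℤ, U (pt (k + m * N)) = U (pt k) := by
    intro k m
    rw [← hU.int m (hpt_pos k)]
    congr 1
    show z + _ = z + _ + _
    push_cast
    field_simp
    ring
  let f : ZMod N → ℂ := fun i => U (pt i.val)
  have hf : ∀ k : ℤ, f (k : ZMod N) = U (pt k) := by
    intro k
    show U (pt ((k : ZMod N).val)) = _
    rw [ZMod.val_intCast]
    have e : k = k % N + (k / N) * N := by
      have := Int.emod_add_mul_ediv k N
      linarith
    conv_rhs => rw [e]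
    rw [hper]
  have hfn : ∀ k : ℕ, f (k : ZMod N) = U (pt k) := by
    intro k
    have := hf (k : ℤ)
    rwa [Int.cast_natCast] at this
  set H : ℝ := (κ + 1) * (‖U z‖ / C) with hH
  have hH0 : 0 ≤ H := by positivity
  have hq0 : 0 ≤ ‖U z‖ / C := by positivity
  have hqH : ‖U z‖ / C ≤ H := by
    rw [hH]
    nlinarith
  have h1 : ∀ i < L, ‖f (i : ZMod N)‖ ≤ H := by
    intro i hi
    rw [hfn]
    refine (hadm _ (Or.inl ⟨hpt_im _, ?_, ?_⟩)).trans hqH
    · rw [hpt_re]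
      have h2 : (N : ℝ) * (ξ - z.re) ≤ b₀ := Int.le_ceil _
      have h3 : ξ - z.re ≤ (b₀ + ((i : ℤ) : ℝ)) / N := by
        rw [le_div_iff₀ hNr]
        have : (0 : ℝ) ≤ ((i : ℤ) : ℝ) := by exact_mod_cast Nat.zero_le i
        linarith
      linarith
    · rw [hpt_re]
      have h2 : (b₀ : ℝ) < (N : ℝ) * (ξ - z.re) + 1 := Int.ceil_lt_add_one _
      have h3 : (b₀ + ((i : ℤ) : ℝ)) / N ≤ ξ - z.re + δ := by
        rw [div_le_iff₀ hNr]
        have h4 : ((i : ℤ) : ℝ) + 1 ≤ L := by exact_mod_cast hi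
        linarith
      linarith
  have h2 : ∀ p, p.Prime → p ∣ N → ∀ b : ZMod N,
      ‖∑ j ∈ range p, f (b + ((j * (N / p) : ℕ) : ZMod N))‖ ≤ H := by
    intro p hp hpN b
    have hpr : (0 : ℝ) < p := by exact_mod_cast hp.pos
    have hpc : (p : ℂ) ≠ 0 := by exact_mod_cast hp.ne_zero
    have hpN' : (p : ℝ) ≤ N := by exact_mod_cast Nat.le_of_dvd hN0 hpN
    have e : ∑ j ∈ range p, f (b + ((j * (N / p) : ℕ) : ZMod N)) =
        ∑ j ∈ range p, U (pt b.val + (j : ℂ) / p) := by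
      refine Finset.sum_congr rfl fun j _ => ?_
      have e1 : b + ((j * (N / p) : ℕ) : ZMod N) = ((b.val + j * (N / p) : ℕ) : ZMod N) := by
        rw [Nat.cast_add, ZMod.natCast_zmod_val]
      rw [e1, hfn]
      congr 1
      show z + _ = z + _ + _
      obtain ⟨m, hm⟩ := hpN
      have hm' : N / p = m := by rw [hm]; exact Nat.mul_div_cancel_left _ hp.pos
      have hmc : (m : ℂ) ≠ 0 := by
        intro h0
        rw [hm] at hNc
        push_cast at hNc
        exact hNc (by rw [h0, mul_zero])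
      rw [hm']
      have hN' : (N : ℂ) = p * m := by rw [hm]; push_cast; rfl
      rw [hN']
      push_cast
      field_simp
      ring
    rw [e]
    have h3 := hU.line hp (hpt_pos b.val)
    have hKp := hκp p hp hpN
    have hpY : Y ≤ p * z.im := by
      have h4 : ⌈Y / y₀⌉₊ ≤ p := hNP p hp hpN
      have h5 : Y / y₀ ≤ p := (Nat.le_ceil _).trans (by exact_mod_cast h4)
      rw [div_le_iff₀ hy₀] at h5
      nlinarith
    have im1 : ((p : ℂ) * pt b.val).im = p * z.im := by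
      have : ((p : ℂ) * pt b.val).im = p * (pt b.val).im := by simp
      rw [this, hpt_im]
    have im2 : ((p : ℂ) * (p * pt b.val)).im = p * (p * z.im) := by
      have : ((p : ℂ) * (p * pt b.val)).im = p * ((p : ℂ) * pt b.val).im := by simp
      rw [this, im1]
    have hp1 : (1 : ℝ) ≤ p := by exact_mod_cast hp.one_lt.le
    have u1 : (p : ℝ) * z.im ≤ N * Y := mul_le_mul hpN' hz2 hz.le hNr.le
    have u2 : (p : ℝ) * (p * z.im) ≤ N * (N * Y) := mul_le_mul hpN' u1 (by positivity) hNr.le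
    have hN1' : (1 : ℝ) ≤ N := by exact_mod_cast hN0
    have a1 := hadm (p * pt b.val) (Or.inr ⟨by rw [im1]; exact hpY, by
      rw [im1]
      have : (N : ℝ) * Y ≤ N * (N * Y) := by
        have : 0 < (N : ℝ) * Y := by positivity
        nlinarith
      linarith⟩)
    have a2 := hadm (p * (p * pt b.val)) (Or.inr ⟨by
      rw [im2]
      have : 0 < (p : ℝ) * z.im := by positivity
      nlinarith, by rw [im2]; exact u2⟩)
    calc ‖∑ j ∈ range p, U (pt b.val + (j : ℂ) / p)‖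
        ≤ K p * ‖U (p * pt b.val)‖ + ‖U (p * (p * pt b.val))‖ := h3
      _ ≤ κ * (‖U z‖ / C) + ‖U z‖ / C := by gcongr
      _ = H := by rw [hH]; ring
  have h3 := hbound f H hH0 h2 h1 ((-b₀ : ℤ) : ZMod N)
  rw [hf] at h3
  have e : pt (-b₀) = z := by
    show z + _ = _
    rw [add_neg_cancel]
    simp
  rw [e, hH] at h3
  have h4 : C₀ * ((κ + 1) * (‖U z‖ / C)) = (C₀ * (κ + 1)) * ‖U z‖ / C := by ring
  rw [h4, le_div_iff₀ hC1, hC] at h3
  nlinarith

end Pool.Agent.N889.SN
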