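import Mathlib
import Pool.Agent.N889.SN.Horo

/-!
# The values high in the cusp control the values on compact sets
-/

set_option autoImplicit false

open Finset Filter

namespace Pool.Agent.N889.SN

lemma im_neg_inv {w : ℂ} : (-w⁻¹).im = w.im / (w.re ^ 2 + w.im ^ 2) := by
  rw [Complex.neg_im, Complex.inv_im, Complex.normSq_apply, neg_div, neg_neg, pow_two, pow_two]

/-- a thin band -/
theorem band (K : ℕ → ℝ) (hK : ∀ p, 0 ≤ K p) (Y : ℝ) (hY : 1 ≤ Y) : ∃ C Y₂ : ℝ, 0 < C ∧ ∀ U : ℂ → ℂ, Per K U →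
    (∀ z : ℂ, 0 < z.im → U (-z⁻¹) = U z) → ∀ z : ℂ, 1 / (4 * Y) ≤ z.im → z.im ≤ 1 / (2 * Y) →
    ∃ w : ℂ, ‖U z‖ ≤ C * ‖U w‖ ∧ Y ≤ w.im ∧ w.im ≤ Y₂ := by
  have hY0 : 0 < Y := by linarith
  obtain ⟨C, Y₂, hC, h⟩ := horo K hK (1 / (4 * Y)) (1 / (4 * Y)) Y (by positivity) (by positivity)
  refine ⟨C, max Y₂ (4 * Y), hC, fun U hU hinv z hz1 hz2 => ?_⟩
  have hb : 1 / (2 * Y) ≤ Y := by
    rw [div_le_iff₀ (by positivity)]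
    nlinarith
  obtain ⟨w, hw, h1⟩ := h U hU z 0 hz1 (hz2.trans hb)
  rcases h1 with ⟨h2, h3, h4⟩ | ⟨h2, h3⟩
  · have hη : 0 < w.im := by
      rw [h2]
      have : 0 < 1 / (4 * Y) := by positivity
      linarith
    have hη1 : 1 / (4 * Y) ≤ w.im := by rw [h2]; exact hz1
    have hη2 : w.im ≤ 1 / (2 * Y) := by rw [h2]; exact hz2
    rw [zero_add] at h4
    have h5 : w.re ^ 2 ≤ w.im ^ 2 := pow_le_pow_left₀ h3 (h4.trans hη1) 2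
    refine ⟨-w⁻¹, by rw [hinv w hη]; exact hw, ?_, ?_⟩
    · rw [im_neg_inv, le_div_iff₀ (by positivity)]
      rw [le_div_iff₀ (by positivity)] at hη2
      nlinarith
    · refine le_trans ?_ (le_max_right _ _)
      rw [im_neg_inv, div_le_iff₀ (by positivity)]
      rw [div_le_iff₀ (by positivity)] at hη1
      nlinarith [sq_nonneg w.re]
  · exact ⟨w, hw, h2, h3.trans (le_max_left _ _)⟩

/-- low points -/
theorem low (K : ℕ → ℝ) (hK : ∀ p, 0 ≤ K p) (Y η : ℝ) (hY : 1 ≤ Y) (hη : 0 < η) (hη1 : η ≤ 1) : ∃ C Y₂ : ℝ, 0 < C ∧ ∀ U : ℂ → ℂ, Per K U →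
    (∀ z : ℂ, 0 < z.im → U (-z⁻¹) = U z) → ∀ z : ℂ, η ≤ z.im → z.im ≤ 1 →
    ∃ w : ℂ, ‖U z‖ ≤ C * ‖U w‖ ∧ Y ≤ w.im ∧ w.im ≤ Y₂ := by
  have hY0 : 0 < Y := by linarith
  obtain ⟨C₁, Y₁, hC₁, h⟩ := horo K hK (η / 4) η Y (by positivity) hη
  obtain ⟨C₂, Y₂, hC₂, h'⟩ := band K hK Y hY
  refine ⟨C₁ * C₂ + C₁, max Y₁ Y₂, by positivity, fun U hU hinv z hz1 hz2 => ?_⟩
  have hz : 0 < z.im := by linarith
  have hs : 0 ≤ 2 * Y * z.im - z.im ^ 2 := by nlinarith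
  obtain ⟨ξ, hξ⟩ : ∃ ξ, ξ = Real.sqrt (2 * Y * z.im - z.im ^ 2) := ⟨_, rfl⟩
  have hξ0 : 0 ≤ ξ := by rw [hξ]; exact Real.sqrt_nonneg _
  have hξ2 : ξ ^ 2 = 2 * Y * z.im - z.im ^ 2 := by rw [hξ]; exact Real.sq_sqrt hs
  obtain ⟨w, hw, h1⟩ := h U hU z ξ hz1 (by linarith)
  rcases h1 with ⟨h2, h3, h4⟩ | ⟨h2, h3⟩
  · have hwi : 0 < w.im := by rw [h2]; exact hz
    have hξY : ξ ≤ 2 * Y := by
      by_contra hlt
      rw [not_le] at hlt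
      nlinarith
    have hre1 : ξ ^ 2 ≤ w.re ^ 2 := pow_le_pow_left₀ hξ0 h3 2
    have hre2 : w.re ^ 2 ≤ (ξ + η / 4) ^ 2 := pow_le_pow_left₀ (hξ0.trans h3) h4 2
    have hb1 : (-w⁻¹).im ≤ 1 / (2 * Y) := by
      rw [im_neg_inv, div_le_div_iff₀ (by positivity) (by positivity), h2]
      nlinarith
    have hb2 : 1 / (4 * Y) ≤ (-w⁻¹).im := by
      rw [im_neg_inv, div_le_div_iff₀ (by positivity) (by positivity), h2]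
      have e1 : (ξ + η / 4) ^ 2 = ξ ^ 2 + ξ * η / 2 + η ^ 2 / 16 := by ring
      have e2 : ξ * η / 2 ≤ Y * z.im := by nlinarith
      have e3 : η ^ 2 / 16 ≤ Y * z.im := by nlinarith
      nlinarith
    obtain ⟨v, hv, hv1, hv2⟩ := h' U hU hinv (-w⁻¹) hb2 hb1
    rw [hinv w hwi] at hv
    refine ⟨v, ?_, hv1, hv2.trans (le_max_right _ _)⟩
    calc ‖U z‖ ≤ C₁ * ‖U w‖ := hw
      _ ≤ C₁ * (C₂ * ‖U v‖) := by gcongr
      _ ≤ (C₁ * C₂ + C₁) * ‖U v‖ := by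
        have : 0 ≤ C₁ * ‖U v‖ := by positivity
        nlinarith
  · refine ⟨w, hw.trans ?_, h2, h3.trans (le_max_left _ _)⟩
    have : 0 ≤ C₁ * C₂ * ‖U w‖ := by positivity
    nlinarith

/-- **Compact sets.** -/
theorem cusp (K : ℕ → ℝ) (hK : ∀ p, 0 ≤ K p) (Y : ℝ) (Ω : Set ℂ) (hΩ : IsCompact Ω) (hΩ' : Ω ⊆ {z : ℂ | 0 < z.im}) :
    ∃ C Y₂ : ℝ, 0 < C ∧ ∀ U : ℂ → ℂ, Per K U → (∀ z : ℂ, 0 < z.im → U (-z⁻¹) = U z) →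
      ∀ z ∈ Ω, ∃ w : ℂ, ‖U z‖ ≤ C * ‖U w‖ ∧ Y ≤ w.im ∧ w.im ≤ Y₂ := by
  obtain ⟨a, b, ha, hb, hab⟩ : ∃ a b : ℝ, 0 < a ∧ a ≤ b ∧ ∀ z ∈ Ω, a ≤ z.im ∧ z.im ≤ b := by
    rcases Ω.eq_empty_or_nonempty with h | h
    · exact ⟨1, 1, one_pos, le_rfl, by simp [h]⟩
    · obtain ⟨z₁, hz₁, h1⟩ := hΩ.exists_isMinOn h Complex.continuous_im.continuousOn
      obtain ⟨z₂, hz₂, h2⟩ := hΩ.exists_isMaxOn h Complex.continuous_im.continuousOn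
      exact ⟨z₁.im, z₂.im, hΩ' hz₁, h1 hz₂, fun z hz => ⟨h1 hz, h2 hz⟩⟩
  have hη : 0 < a / (4 + b ^ 2) := by positivity
  have hη1 : a / (4 + b ^ 2) ≤ 1 := by
    rw [div_le_one (by positivity)]
    nlinarith [sq_nonneg (b - 1)]
  obtain ⟨C, Y₂, hC, h⟩ := low K hK (max Y 1) (a / (4 + b ^ 2)) (le_max_right _ _) hη hη1
  refine ⟨C, Y₂, hC, fun U hU hinv z hz => ?_⟩
  obtain ⟨h1, h2⟩ := hab z hz
  have hz0 : 0 < z.im := hΩ' hz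
  obtain ⟨n, hn⟩ : ∃ n : ℤ, n = ⌈1 - z.re⌉ := ⟨_, rfl⟩
  have n1 : 1 - z.re ≤ n := by rw [hn]; exact Int.le_ceil _
  have n2 : (n : ℝ) < 1 - z.re + 1 := by rw [hn]; exact Int.ceil_lt_add_one _
  have e1 : (z + (n : ℂ)).im = z.im := by simp
  have e2 : (z + (n : ℂ)).re = z.re + n := by simp
  have hp : 0 < (z + (n : ℂ)).im := by rw [e1]; exact hz0
  have e3 : U (-(z + n)⁻¹) = U z := by rw [hinv _ hp, hU.int n hz0]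
  have hr1 : (1 : ℝ) ≤ (z.re + n) ^ 2 := by nlinarith
  have hr2 : (z.re + n) ^ 2 ≤ 4 := by nlinarith
  have i1 : a / (4 + b ^ 2) ≤ (-(z + (n : ℂ))⁻¹).im := by
    rw [im_neg_inv, e1, e2, div_le_div_iff₀ (by positivity) (by positivity)]
    have h3 : z.im ^ 2 ≤ b ^ 2 := pow_le_pow_left₀ hz0.le h2 2
    exact mul_le_mul h1 (by linarith) (by positivity) hz0.le
  have i2 : (-(z + (n : ℂ))⁻¹).im ≤ 1 := by
    rw [im_neg_inv, e1, e2, div_le_one (by positivity)]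
    nlinarith [sq_nonneg (z.im - 1)]
  obtain ⟨w, hw, hw1, hw2⟩ := h U hU hinv _ i1 i2
  rw [e3] at hw
  exact ⟨w, hw, (le_max_left _ _).trans hw1, hw2⟩

end Pool.Agent.N889.SN
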