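import Mathlib
import Pool.Agent.N889.SN.Count
import Pool.Agent.N889.SN.Cusp

/-!
# The values on one compact set control the values on all compact sets
-/

set_option autoImplicit false

open UpperHalfPlane ModularGroup
open scoped Modular MatrixGroups

namespace Pool.Agent.N889.SN

lemma im_smul_le (g : SL(2, ℤ)) (v : ℍ) : (g • v).im ≤ max v.im (1 / v.im) := by
  have hv : 0 < v.im := v.im_pos
  rw [ModularGroup.im_smul_eq_div_normSq, normSq_den]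
  by_cases hc : g 1 0 = 0
  · have h3 := det_eq g
    rw [hc, mul_zero, sub_zero] at h3
    have h4 : |g 1 1| = 1 := Int.isUnit_iff_abs_eq.1 ⟨⟨g 1 1, g 0 0, by linarith, by linarith⟩, rfl⟩
    have h5 : (g 1 1) ^ 2 = 1 := by rw [← sq_abs, h4, one_pow]
    have h6 : ((g 1 1 : ℝ)) ^ 2 = 1 := by exact_mod_cast h5
    refine le_trans (le_of_eq ?_) (le_max_left _ _)
    rw [hc]
    simp [h6]
  · have h3 : (1 : ℝ) ≤ (g 1 0 : ℝ) ^ 2 := by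
      have : 1 ≤ (g 1 0) ^ 2 := by
        have := sq_pos_of_ne_zero hc
        omega
      exact_mod_cast this
    refine le_trans ?_ (le_max_right _ _)
    have h4 : v.im ^ 2 ≤ ((g 1 0 : ℝ) * v.re + g 1 1) ^ 2 + ((g 1 0 : ℝ) * v.im) ^ 2 := by
      rw [mul_pow]
      nlinarith [sq_nonneg ((g 1 0 : ℝ) * v.re + g 1 1), sq_nonneg v.im]
    rw [div_le_div_iff₀ (lt_of_lt_of_le (by positivity) h4) hv]
    nlinarith

lemma reduce (v : ℍ) (y : ℝ) (hy : 5 / 2 ≤ y) (h1 : y / 4 ≤ v.im) (h2 : v.im ≤ y / 2) :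
    ∃ g : SL(2, ℤ), g • v ∈ 𝒟 ∧ (g • v).im ≤ 16 / 25 * y := by
  obtain ⟨g, hg⟩ := exists_smul_mem_fd v
  refine ⟨g, hg, (im_smul_le g v).trans (max_le (by linarith) ?_)⟩
  have hv : 0 < v.im := v.im_pos
  rw [div_le_iff₀ hv]
  nlinarith

/-- one step down -/
lemma step (K : ℕ → ℝ) (hK : ∀ p, 0 ≤ K p) (U : ℂ → ℂ) (hU : Per K U)
    (hinv : ∀ (g : SL(2, ℤ)) (z : ℍ), U ((g • z : ℍ) : ℂ) = U z) (z : ℍ) (hy : 5 / 2 ≤ z.im) :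
    ∃ w : ℍ, w ∈ 𝒟 ∧ w.im ≤ 16 / 25 * z.im ∧ ‖U z‖ ≤ (K 2 + 2) * ‖U w‖ := by
  have hK2 := hK 2
  have hz : 0 < z.im := z.im_pos
  by_contra hcon
  push Not at hcon
  have key : ∀ v : ℂ, z.im / 4 ≤ v.im → v.im ≤ z.im / 2 → ‖U v‖ ≤ ‖U z‖ / (K 2 + 2) ∧ (K 2 + 2) * ‖U v‖ < ‖U z‖ := by
    intro v h1 h2
    have hv : 0 < v.im := by linarith
    obtain ⟨g, hg, hg2⟩ := reduce ⟨v, hv⟩ z.im hy h1 h2
    have h3 := hcon _ hg hg2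
    rw [hinv g ⟨v, hv⟩] at h3
    refine ⟨?_, h3⟩
    rw [le_div_iff₀ (by positivity), mul_comm]
    exact h3.le
  obtain ⟨c, hc, hr⟩ := hU.hecke 2 Nat.prime_two
  have e1 : ((z : ℂ) / 2).im = z.im / 2 := by
    rw [show (2 : ℂ) = ((2 : ℝ) : ℂ) by norm_num, Complex.div_ofReal_im, UpperHalfPlane.coe_im]
  have e2 : ((z : ℂ) / 2 / 2).im = z.im / 4 := by
    rw [show (2 : ℂ) = ((2 : ℝ) : ℂ) by norm_num, Complex.div_ofReal_im, Complex.div_ofReal_im, UpperHalfPlane.coe_im]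
    ring
  have e3 : (((z : ℂ) / 2 + 1) / 2).im = z.im / 4 := by
    have : (((z : ℂ) / 2 + 1) / 2) = (z : ℂ) / 2 / 2 + ((1 / 2 : ℝ) : ℂ) := by
      push_cast
      ring
    rw [this, Complex.add_im, e2, Complex.ofReal_im, add_zero]
  have h0 := hr ((z : ℂ) / 2) (by rw [e1]; linarith)
  rw [Finset.sum_range_succ, Finset.sum_range_one] at h0
  have e4 : ((2 : ℕ) : ℂ) * ((z : ℂ) / 2) = z := by push_cast; ring
  have e5 : ((z : ℂ) / 2 + ((0 : ℕ) : ℂ)) / ((2 : ℕ) : ℂ) = (z : ℂ) / 2 / 2 := by push_cast; ring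
  have e6 : ((z : ℂ) / 2 + ((1 : ℕ) : ℂ)) / ((2 : ℕ) : ℂ) = ((z : ℂ) / 2 + 1) / 2 := by push_cast; ring
  rw [e4, e5, e6] at h0
  obtain ⟨a1, a1'⟩ := key _ (by rw [e1]; linarith) (by rw [e1])
  obtain ⟨a2, -⟩ := key _ (by rw [e2]) (by rw [e2]; linarith)
  obtain ⟨a3, -⟩ := key _ (by rw [e3]) (by rw [e3]; linarith)
  have hpos : 0 < ‖U z‖ := lt_of_le_of_lt (by positivity) a1'
  have e7 : U z = c * U ((z : ℂ) / 2) - (U ((z : ℂ) / 2 / 2) + U (((z : ℂ) / 2 + 1) / 2)) := by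
    rw [← h0]
    ring
  have h1 : ‖U z‖ ≤ K 2 * ‖U ((z : ℂ) / 2)‖ + (‖U ((z : ℂ) / 2 / 2)‖ + ‖U (((z : ℂ) / 2 + 1) / 2)‖) := by
    calc ‖U z‖ = ‖c * U ((z : ℂ) / 2) - (U ((z : ℂ) / 2 / 2) + U (((z : ℂ) / 2 + 1) / 2))‖ := by rw [← e7]
      _ ≤ ‖c * U ((z : ℂ) / 2)‖ + ‖U ((z : ℂ) / 2 / 2) + U (((z : ℂ) / 2 + 1) / 2)‖ := norm_sub_le _ _
      _ ≤ _ := by
        rw [norm_mul]
        gcongr
        exact norm_add_le _ _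
  rcases hK2.eq_or_lt with h | h
  · -- `K 2 = 0`
    obtain ⟨-, b2⟩ := key _ (by rw [e2]) (by rw [e2]; linarith)
    obtain ⟨-, b3⟩ := key _ (by rw [e3]) (by rw [e3]; linarith)
    rw [← h] at h1 b2 b3
    linarith
  · have a4 : K 2 * ‖U ((z : ℂ) / 2)‖ + 2 * ‖U ((z : ℂ) / 2)‖ < ‖U z‖ := by linarith
    obtain ⟨-, b2⟩ := key _ (by rw [e2]) (by rw [e2]; linarith)
    obtain ⟨-, b3⟩ := key _ (by rw [e3]) (by rw [e3]; linarith)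
    have c1 : ‖U ((z : ℂ) / 2)‖ < ‖U z‖ / (K 2 + 2) := by
      rw [lt_div_iff₀ (by positivity), mul_comm]
      exact a1'
    have c2 : ‖U ((z : ℂ) / 2 / 2)‖ < ‖U z‖ / (K 2 + 2) := by
      rw [lt_div_iff₀ (by positivity), mul_comm]
      exact b2
    have c3 : ‖U (((z : ℂ) / 2 + 1) / 2)‖ < ‖U z‖ / (K 2 + 2) := by
      rw [lt_div_iff₀ (by positivity), mul_comm]
      exact b3
    have c4 : K 2 * ‖U ((z : ℂ) / 2)‖ ≤ K 2 * (‖U z‖ / (K 2 + 2)) := by gcongr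
    have c5 : K 2 * (‖U z‖ / (K 2 + 2)) + (‖U z‖ / (K 2 + 2) + ‖U z‖ / (K 2 + 2)) = ‖U z‖ := by
      field_simp
      ring
    linarith

/-- down to the core -/
lemma core (K : ℕ → ℝ) (hK : ∀ p, 0 ≤ K p) (U : ℂ → ℂ) (hU : Per K U)
    (hinv : ∀ (g : SL(2, ℤ)) (z : ℍ), U ((g • z : ℍ) : ℂ) = U z) (n : ℕ) :
    ∀ z : ℍ, z ∈ 𝒟 → z.im ≤ 5 / 2 * (25 / 16) ^ n →
    ∃ w : ℍ, w ∈ 𝒟 ∧ w.im ≤ 5 / 2 ∧ ‖U z‖ ≤ (K 2 + 2) ^ n * ‖U w‖ := by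
  have hK2 := hK 2
  induction n with
  | zero =>
    intro z hz hy
    refine ⟨z, hz, by simpa using hy, by simp⟩
  | succ n ih =>
    intro z hz hy
    rcases le_or_gt z.im (5 / 2) with h | h
    · refine ⟨z, hz, h, ?_⟩
      have h1 : (1 : ℝ) ≤ (K 2 + 2) ^ (n + 1) := one_le_pow₀ (by linarith)
      nlinarith [norm_nonneg (U z)]
    · obtain ⟨w, hw, hw1, hw2⟩ := step K hK U hU hinv z h.le
      obtain ⟨v, hv, hv1, hv2⟩ := ih w hw (by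
        rw [pow_succ] at hy
        linarith)
      refine ⟨v, hv, hv1, ?_⟩
      calc ‖U z‖ ≤ (K 2 + 2) * ‖U w‖ := hw2
        _ ≤ (K 2 + 2) * ((K 2 + 2) ^ n * ‖U v‖) := by gcongr
        _ = _ := by ring

/-- down to the core, from a compact set -/
theorem toCore (K : ℕ → ℝ) (hK : ∀ p, 0 ≤ K p) (Ω : Set ℂ) (hΩ : IsCompact Ω) (hΩ' : Ω ⊆ {z : ℂ | 0 < z.im}) :
    ∃ C : ℝ, 0 < C ∧ ∀ U : ℂ → ℂ, Per K U →
      (∀ (g : SL(2, ℤ)) (z : ℍ), U ((g • z : ℍ) : ℂ) = U z) →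
      ∀ z ∈ Ω, ∃ w : ℂ, ‖U z‖ ≤ C * ‖U w‖ ∧ |w.re| ≤ 1 / 2 ∧ 1 / 2 ≤ w.im ∧ w.im ≤ 5 / 2 := by
  have hK2 := hK 2
  obtain ⟨B, hB⟩ : ∃ B : ℝ, ∀ z ∈ Ω, max z.im (1 / z.im) ≤ B := by
    have hcont : ContinuousOn (fun z : ℂ => z.im + 1 / z.im) Ω := by
      refine ContinuousOn.add Complex.continuous_im.continuousOn ?_
      exact continuousOn_const.div Complex.continuous_im.continuousOn fun z hz => (hΩ' hz).ne'
    obtain ⟨B, hB⟩ := (hΩ.image_of_continuousOn hcont).bddAbove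
    refine ⟨B, fun z hz => ?_⟩
    have h1 : z.im + 1 / z.im ≤ B := hB ⟨z, hz, rfl⟩
    have h2 : 0 < z.im := hΩ' hz
    have h3 : 0 < 1 / z.im := by positivity
    exact max_le (by linarith) (by linarith)
  obtain ⟨n, hn⟩ := pow_unbounded_of_one_lt B (by norm_num : (1 : ℝ) < 25 / 16)
  refine ⟨(K 2 + 2) ^ n, by positivity, fun U hU hinv' z hz => ?_⟩
  obtain ⟨g, hg⟩ := exists_smul_mem_fd (⟨z, hΩ' hz⟩ : ℍ)
  have h1 : (g • (⟨z, hΩ' hz⟩ : ℍ)).im ≤ 5 / 2 * (25 / 16) ^ n := by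
    have h2 := (im_smul_le g ⟨z, hΩ' hz⟩).trans (hB z hz)
    have h3 : (0 : ℝ) < (25 / 16) ^ n := by positivity
    linarith
  obtain ⟨w, hw, hw1, hw2⟩ := core K hK U hU hinv' n _ hg h1
  rw [hinv' g ⟨z, hΩ' hz⟩] at hw2
  refine ⟨w, hw2, hw.2, ?_, hw1⟩
  have hy := three_le_four_mul_im_sq_of_mem_fd hw
  have hy0 : 0 < w.im := w.im_pos
  rw [UpperHalfPlane.coe_im]
  nlinarith

end Pool.Agent.N889.SN
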