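import Mathlib

/-!
# A diagonal argument
-/

set_option autoImplicit false

open Filter

namespace Pool.Agent.N889.SN

theorem diag (a b : ℕ → ℝ) (ha : ∀ k, 0 < a k) (G : ℝ → ℝ) (hG : Tendsto G atTop atTop) :
    ∃ κ : ℝ → ℕ, Tendsto κ atTop atTop ∧ (∀ T, 1 ≤ κ T) ∧ (∀ᶠ T in atTop, b (κ T) ≤ G T) ∧
      ∀ ε : ℝ, 0 < ε → ∃ B : ℝ, 0 < B ∧ ∀ T : ℝ, 1 ≤ T → a (κ T) ≤ B * T ^ ε := by
  classical
  let P : ℝ → ℕ → Prop := fun T k => 1 ≤ k ∧ b k ≤ G T ∧ (a k) ^ k ≤ T
  let g : ℝ → ℕ := fun T => Nat.findGreatest (P T) ⌊T⌋₊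
  have hP : ∀ k : ℕ, 1 ≤ k → ∀ᶠ T in atTop, P T k := by
    intro k hk
    filter_upwards [hG.eventually_ge_atTop (b k), eventually_ge_atTop ((a k) ^ k)] with T h1 h2
    exact ⟨hk, h1, h2⟩
  have hg : ∀ k : ℕ, 1 ≤ k → ∀ᶠ T in atTop, k ≤ g T := by
    intro k hk
    filter_upwards [hP k hk, eventually_ge_atTop (k : ℝ)] with T h1 h2
    exact Nat.le_findGreatest (Nat.le_floor h2) h1
  have hspec : ∀ T, 1 ≤ g T → P T (g T) := by
    intro T h
    exact Nat.findGreatest_of_ne_zero rfl (by omega)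
  refine ⟨fun T => max (g T) 1, ?_, fun T => le_max_right _ _, ?_, ?_⟩
  · rw [tendsto_atTop]
    intro k
    filter_upwards [hg (max k 1) (le_max_right _ _)] with T h
    exact (le_max_left k 1).trans (h.trans (le_max_left _ _))
  · filter_upwards [hg 1 le_rfl] with T h
    have : max (g T) 1 = g T := max_eq_left h
    rw [this]
    exact (hspec T h).2.1
  · intro ε hε
    obtain ⟨k₀, hk₀⟩ := exists_nat_ge (1 / ε)
    refine ⟨∑ j ∈ Finset.range (k₀ + 2), a j + 1, ?_, fun T hT => ?_⟩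
    · have : 0 ≤ ∑ j ∈ Finset.range (k₀ + 2), a j := Finset.sum_nonneg fun j _ => (ha j).le
      linarith
    · have hT0 : 0 < T := by linarith
      have hTε : 1 ≤ T ^ ε := Real.one_le_rpow hT hε.le
      have hS : 0 ≤ ∑ j ∈ Finset.range (k₀ + 2), a j := Finset.sum_nonneg fun j _ => (ha j).le
      rcases lt_or_ge (max (g T) 1) (k₀ + 2) with h | h
      · have h1 : a (max (g T) 1) ≤ ∑ j ∈ Finset.range (k₀ + 2), a j :=
          Finset.single_le_sum (fun j _ => (ha j).le) (Finset.mem_range.2 h)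
        nlinarith
      · have hgT : 1 ≤ g T := by
          rcases Nat.lt_or_ge (g T) 1 with h2 | h2
          · have : max (g T) 1 = 1 := max_eq_right (by omega)
            omega
          · exact h2
        have e : max (g T) 1 = g T := max_eq_left hgT
        simp only [e] at h ⊢
        have h3 := (hspec T hgT).2.2
        have hgpos : (0 : ℝ) < g T := by exact_mod_cast hgT
        have h4 : a (g T) ≤ T ^ (1 / (g T : ℝ)) := by
          have h5 : ((a (g T)) ^ (g T)) ^ (1 / (g T : ℝ)) ≤ T ^ (1 / (g T : ℝ)) :=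
            Real.rpow_le_rpow (by have := ha (g T); positivity) h3 (by positivity)
          rw [one_div, Real.pow_rpow_inv_natCast (ha _).le (by omega)] at h5
          rw [one_div]
          exact h5
        have h6 : (1 : ℝ) / (g T : ℝ) ≤ ε := by
          rw [div_le_iff₀ hgpos]
          have h7 : (k₀ : ℝ) ≤ g T := by
            have : k₀ ≤ g T := by omega
            exact_mod_cast this
          rw [div_le_iff₀ hε] at hk₀
          nlinarith
        have h8 : T ^ (1 / (g T : ℝ)) ≤ T ^ ε := Real.rpow_le_rpow_of_exponent_le hT h6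
        nlinarith

end Pool.Agent.N889.SN
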