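import Mathlib
import Pool.Agent.N889.SN.Count
import Pool.Agent.Results.MP_8fded1_nt.EllipticPointIsHarmless

/-!
# The eigenvalues of the Hecke operators are bounded
-/

set_option autoImplicit false

open UpperHalfPlane MeasureTheory ModularGroup
open scoped Modular MatrixGroups ENNReal

namespace Pool.Agent.N889.SN

open Pool.Agent.Results.MP_8fded1_nt.EllipticPointIsHarmless (IsHeckeMaass invariance)

/-- upper triangular matrices -/
noncomputable def mat (a b d : ℝ) (h : a * d ≠ 0) : GL (Fin 2) ℝ :=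
  Matrix.GeneralLinearGroup.mkOfDetNeZero !![a, b; 0, d] (by simpa [Matrix.det_fin_two] using h)

lemma coe_mat {a b d : ℝ} (ha : 0 < a) (hd : 0 < d) (h : a * d ≠ 0) (z : ℍ) :
    ((mat a b d h • z : ℍ) : ℂ) = (a * z + b) / d := by
  rw [coe_smul_of_det_pos]
  · simp [num, denom, mat, Matrix.GeneralLinearGroup.mkOfDetNeZero]
  · simp [mat, Matrix.GeneralLinearGroup.mkOfDetNeZero, Matrix.det_fin_two]
    positivity

lemma lint_smul_le (φ : ℍ → ℝ≥0∞) (hφ : Measurable φ) (g : GL (Fin 2) ℝ) (A : Set ℍ) (hA : MeasurableSet A)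
    (h : ∀ z ∈ 𝒟, g • z ∈ A) : ∫⁻ z in 𝒟, φ (g • z) ≤ ∫⁻ z in A, φ z := by
  rw [← lintegral_indicator measurableSet_fd, ← lintegral_indicator hA,
    ← (mp g).lintegral_comp (hφ.indicator hA)]
  refine lintegral_mono fun z => ?_
  by_cases hz : z ∈ 𝒟
  · rw [Set.indicator_of_mem hz, Set.indicator_of_mem (h z hz)]
  · rw [Set.indicator_of_notMem hz]
    exact bot_le

/-- **The eigenvalues are bounded.** -/
theorem eig (p : ℕ) (hp : p.Prime) : ∃ K : ℝ, 0 ≤ K ∧ ∀ (U : ℂ → ℂ),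
    Measurable (fun z : ℍ => ENNReal.ofReal (‖U z‖ ^ 2)) →
    (∀ (g : SL(2, ℤ)) (z : ℍ), U ((g • z : ℍ) : ℂ) = U z) →
    ∫⁻ z in 𝒟, ENNReal.ofReal (‖U (z : ℍ)‖ ^ 2) ≠ 0 → ∫⁻ z in 𝒟, ENNReal.ofReal (‖U (z : ℍ)‖ ^ 2) ≠ ∞ →
    ∀ c : ℂ, (∀ z : ℂ, 0 < z.im → U (p * z) + ∑ b ∈ Finset.range p, U ((z + b) / p) = c * U z) →
    ‖c‖ ≤ K := by
  obtain ⟨M, hM⟩ := count (2 * p) p (by have := hp.pos; omega)
  have hp0 : (0 : ℝ) < p := by exact_mod_cast hp.pos
  have hp2 : (2 : ℝ) ≤ p := by exact_mod_cast hp.two_le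
  refine ⟨(p + 1) * (M + 1), by positivity, fun U hmeas hinv h0 htop c hc => ?_⟩
  set φ : ℍ → ℝ≥0∞ := fun z => ENNReal.ofReal (‖U z‖ ^ 2) with hφ
  have hφinv : ∀ (g : SL(2, ℤ)) (z : ℍ), φ (g • z) = φ z := fun g z => by
    simp only [hφ]
    rw [hinv]
  set I := ∫⁻ z in 𝒟, φ z with hI
  have hA : ∫⁻ z in Sieg (2 * p) p, φ z ≤ M * I :=
    unfold_le φ hmeas hφinv _ (measurableSet_sieg _ _) M hM
  -- the matrices
  have q0 : (p : ℝ) * 1 ≠ 0 := by positivity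
  have q1 : (1 : ℝ) * p ≠ 0 := by positivity
  set γ₀ : GL (Fin 2) ℝ := mat p 0 1 q0 with hγ₀
  set γ : ℕ → GL (Fin 2) ℝ := fun b => mat 1 b p q1 with hγ
  have c0 : ∀ z : ℍ, ((γ₀ • z : ℍ) : ℂ) = p * z := by
    intro z
    rw [hγ₀, coe_mat hp0 one_pos]
    push_cast
    ring
  have c1 : ∀ (b : ℕ) (z : ℍ), ((γ b • z : ℍ) : ℂ) = (z + b) / p := by
    intro b z
    simp only [hγ]
    rw [coe_mat one_pos hp0]
    push_cast
    ring
  have im_fd : ∀ z ∈ (𝒟 : Set ℍ), 1 / 2 ≤ z.im := by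
    intro z hz
    have hy := three_le_four_mul_im_sq_of_mem_fd hz
    have hy0 : 0 < z.im := z.im_pos
    nlinarith
  have i0 : ∫⁻ z in 𝒟, φ (γ₀ • z) ≤ M * I := by
    refine (lint_smul_le φ hmeas γ₀ _ (measurableSet_sieg (2 * p) p) fun z hz => ?_).trans hA
    have h1 : (γ₀ • z).im = p * z.im := by
      have := congrArg Complex.im (c0 z)
      simpa using this
    have h2 : (γ₀ • z).re = p * z.re := by
      have := congrArg Complex.re (c0 z)
      simpa using this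
    have h3 := im_fd z hz
    have h4 : |z.re| ≤ 1 / 2 := hz.2
    constructor
    · rw [h1]
      push_cast
      rw [div_le_iff₀ (by positivity)]
      have h5 : 1 ≤ p * z.im := by nlinarith
      have h6 : (p * z.im) * (2 * p) = (p * z.im) * 2 * p := by ring
      nlinarith [mul_nonneg (sub_nonneg.2 h5) (sub_nonneg.2 hp2)]
    · rw [h2, abs_mul, abs_of_pos hp0]
      nlinarith
  have i1 : ∀ b ∈ Finset.range p, ∫⁻ z in 𝒟, φ (γ b • z) ≤ M * I := by
    intro b hb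
    rw [Finset.mem_range] at hb
    have hb' : (b : ℝ) + 1 ≤ p := by exact_mod_cast hb
    refine (lint_smul_le φ hmeas (γ b) _ (measurableSet_sieg (2 * p) p) fun z hz => ?_).trans hA
    have e : (((z : ℂ) + b) / p) = ((1 / (p : ℝ) : ℝ) : ℂ) * (z + b) := by
      push_cast
      ring
    have h1 : (γ b • z).im = z.im / p := by
      have := congrArg Complex.im (c1 b z)
      rw [e, Complex.im_ofReal_mul] at this
      have h5 : ((z : ℂ) + b).im = z.im := by simp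
      rw [h5] at this
      rw [← UpperHalfPlane.coe_im, this]
      ring
    have h2 : (γ b • z).re = (z.re + b) / p := by
      have := congrArg Complex.re (c1 b z)
      rw [e, Complex.re_ofReal_mul] at this
      have h5 : ((z : ℂ) + b).re = z.re + b := by simp
      rw [h5] at this
      rw [← UpperHalfPlane.coe_re, this]
      ring
    have h3 := im_fd z hz
    have h4 : |z.re| ≤ 1 / 2 := hz.2
    constructor
    · rw [h1]
      push_cast
      rw [div_le_div_iff₀ (by positivity) hp0]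
      nlinarith
    · rw [h2, abs_div, abs_of_pos hp0, div_le_iff₀ hp0]
      have hb0 : (0 : ℝ) ≤ b := Nat.cast_nonneg b
      have h5 := abs_add_le z.re (b : ℝ)
      rw [abs_of_nonneg hb0] at h5
      nlinarith
  -- the pointwise inequality
  have key : ∀ z : ℍ, ENNReal.ofReal (‖c‖ ^ 2) * φ z ≤
      ENNReal.ofReal (p + 1) * (φ (γ₀ • z) + ∑ b ∈ Finset.range p, φ (γ b • z)) := by
    intro z
    have h1 : ‖c‖ * ‖U z‖ ≤ ‖U (γ₀ • z : ℍ)‖ + ∑ b ∈ Finset.range p, ‖U (γ b • z : ℍ)‖ := by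
      rw [← norm_mul, ← hc z z.im_pos, c0]
      refine (norm_add_le _ _).trans ?_
      gcongr
      refine (norm_sum_le _ _).trans (le_of_eq (Finset.sum_congr rfl fun b _ => ?_))
      rw [c1]
    have h2 : (‖U (γ₀ • z : ℍ)‖ + ∑ b ∈ Finset.range p, ‖U (γ b • z : ℍ)‖) ^ 2 ≤
        (p + 1) * (‖U (γ₀ • z : ℍ)‖ ^ 2 + ∑ b ∈ Finset.range p, ‖U (γ b • z : ℍ)‖ ^ 2) := by
      have h3 := sq_sum_le_card_mul_sum_sq (s := Finset.range (p + 1))
        (f := fun i => if i < p then ‖U (γ i • z : ℍ)‖ else ‖U (γ₀ • z : ℍ)‖)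
      rw [Finset.sum_range_succ, Finset.sum_range_succ, Finset.card_range, if_neg (lt_irrefl p)] at h3
      have e1 : ∑ i ∈ Finset.range p, (if i < p then ‖U (γ i • z : ℍ)‖ else ‖U (γ₀ • z : ℍ)‖) =
          ∑ b ∈ Finset.range p, ‖U (γ b • z : ℍ)‖ :=
        Finset.sum_congr rfl fun b hb => if_pos (Finset.mem_range.1 hb)
      have e2 : ∑ i ∈ Finset.range p, (if i < p then ‖U (γ i • z : ℍ)‖ else ‖U (γ₀ • z : ℍ)‖) ^ 2 =
          ∑ b ∈ Finset.range p, ‖U (γ b • z : ℍ)‖ ^ 2 :=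
        Finset.sum_congr rfl fun b hb => by rw [if_pos (Finset.mem_range.1 hb)]
      rw [e1, e2] at h3
      push_cast at h3
      rw [add_comm (‖U (γ₀ • z : ℍ)‖), add_comm (‖U (γ₀ • z : ℍ)‖ ^ 2)]
      exact h3
    have h4 : ‖c‖ ^ 2 * ‖U z‖ ^ 2 ≤
        (p + 1) * (‖U (γ₀ • z : ℍ)‖ ^ 2 + ∑ b ∈ Finset.range p, ‖U (γ b • z : ℍ)‖ ^ 2) := by
      rw [← mul_pow]
      exact (pow_le_pow_left₀ (by positivity) h1 2).trans h2
    have h5 := ENNReal.ofReal_le_ofReal h4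
    have e3 : ENNReal.ofReal (‖U (γ₀ • z : ℍ)‖ ^ 2 + ∑ b ∈ Finset.range p, ‖U (γ b • z : ℍ)‖ ^ 2) =
        φ (γ₀ • z) + ∑ b ∈ Finset.range p, φ (γ b • z) := by
      rw [ENNReal.ofReal_add (sq_nonneg _) (Finset.sum_nonneg fun b _ => sq_nonneg _),
        ENNReal.ofReal_sum_of_nonneg (fun b _ => sq_nonneg _)]
    rw [ENNReal.ofReal_mul (by positivity), ENNReal.ofReal_mul (by positivity), e3] at h5
    exact h5
  have hm0 : Measurable fun z : ℍ => φ (γ₀ • z) := hmeas.comp (mp γ₀).measurable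
  have hm1 : ∀ b, Measurable fun z : ℍ => φ (γ b • z) := fun b => hmeas.comp (mp (γ b)).measurable
  have total : ENNReal.ofReal (‖c‖ ^ 2) * I ≤ (ENNReal.ofReal (p + 1) * ((p + 1) * M)) * I := by
    calc ENNReal.ofReal (‖c‖ ^ 2) * I = ∫⁻ z in 𝒟, ENNReal.ofReal (‖c‖ ^ 2) * φ z :=
          (lintegral_const_mul _ hmeas).symm
      _ ≤ ∫⁻ z in 𝒟, ENNReal.ofReal (p + 1) * (φ (γ₀ • z) + ∑ b ∈ Finset.range p, φ (γ b • z)) :=
          lintegral_mono key
      _ = ENNReal.ofReal (p + 1) * ((∫⁻ z in 𝒟, φ (γ₀ • z)) + ∑ b ∈ Finset.range p, ∫⁻ z in 𝒟, φ (γ b • z)) := by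
          have hm : Measurable fun z : ℍ => φ (γ₀ • z) + ∑ b ∈ Finset.range p, φ (γ b • z) :=
            hm0.add (Finset.measurable_sum _ fun b _ => hm1 b)
          rw [lintegral_const_mul _ hm, lintegral_add_left hm0, lintegral_finsetSum _ fun b _ => hm1 b]
      _ ≤ ENNReal.ofReal (p + 1) * (M * I + ∑ _b ∈ Finset.range p, M * I) := by
          exact mul_le_mul_right (add_le_add i0 (Finset.sum_le_sum i1)) _
      _ = (ENNReal.ofReal (p + 1) * ((p + 1) * M)) * I := by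
          rw [Finset.sum_const, Finset.card_range, nsmul_eq_mul]
          ring
  have h1 : ENNReal.ofReal (‖c‖ ^ 2) ≤ ENNReal.ofReal (p + 1) * ((p + 1) * M) :=
    (ENNReal.mul_le_mul_iff_left h0 htop).1 total
  have h2 : ENNReal.ofReal (p + 1) * ((p + 1) * M) = ENNReal.ofReal ((p + 1) * ((p + 1) * M)) := by
    rw [ENNReal.ofReal_mul (by positivity), ENNReal.ofReal_mul (by positivity), ENNReal.ofReal_add (by positivity) (by positivity)]
    simp
  rw [h2, ENNReal.ofReal_le_ofReal_iff (by positivity)] at h1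
  have h3 : ‖c‖ ^ 2 ≤ (((p : ℝ) + 1) * (M + 1)) ^ 2 := by
    have hM0 : (0 : ℝ) ≤ M := Nat.cast_nonneg M
    have : ((p : ℝ) + 1) * ((p + 1) * M) ≤ (((p : ℝ) + 1) * (M + 1)) ^ 2 := by
      have e : (((p : ℝ) + 1) * (M + 1)) ^ 2 = (p + 1) ^ 2 * (M + 1) ^ 2 := by ring
      rw [e]
      have e2 : ((p : ℝ) + 1) * ((p + 1) * M) = (p + 1) ^ 2 * M := by ring
      rw [e2]
      apply mul_le_mul_of_nonneg_left _ (by positivity)
      nlinarith
    exact h1.trans this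
  exact (pow_le_pow_iff_left₀ (norm_nonneg c) (by positivity) two_ne_zero).1 h3

end Pool.Agent.N889.SN
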