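import Mathlib
import Pool.Agent.N889.SN.Eig
import Pool.Agent.N889.SN.Cusp
import Pool.Agent.Results.MP_8fded1_nt.EllipticPointIsHarmless

/-!
# Hecke–Maass cusp forms satisfy the hypotheses of `horo` and `cusp`
-/

set_option autoImplicit false

open UpperHalfPlane MeasureTheory ModularGroup
open scoped Modular MatrixGroups ENNReal

namespace Pool.Agent.N889.SN

open Pool.Agent.Results.MP_8fded1_nt.EllipticPointIsHarmless (IsHeckeMaass invariance)

lemma lint_eq (F : ℂ → ℝ≥0∞) (φ : ℍ → ℝ≥0∞) (hφ : Measurable φ)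
    (h : ∀ z : ℍ, ((1 / NNReal.mk z.im z.im_pos.le : NNReal) ^ 2 : NNReal) * φ z = F z) :
    ∫⁻ z in 𝒟, φ z = ∫⁻ z in {z : ℂ | 0 < z.im ∧ |z.re| ≤ 1 / 2 ∧ 1 ≤ ‖z‖}, F z := by
  have hmp : MeasurePreserving UpperHalfPlane.coe (volume.comap UpperHalfPlane.coe)
      (volume.restrict (.range UpperHalfPlane.coe)) :=
    ⟨measurable_coe, by rw [measurableEmbedding_coe.map_comap]⟩
  have hm : Measurable fun z : ℍ => (((1 / NNReal.mk z.im z.im_pos.le : NNReal) ^ 2 : NNReal) : ℝ≥0∞) := by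
    refine Measurable.coe_nnreal_ennreal (Continuous.measurable ?_)
    refine .pow (.div₀ continuous_const ?_ ?_) _
    · exact UpperHalfPlane.continuous_im.subtype_mk _
    · exact fun x ↦ NNReal.ne_iff.mp x.im_ne_zero
  rw [volume_def, setLIntegral_withDensity_eq_setLIntegral_mul _ hm hφ measurableSet_fd]
  have e : UpperHalfPlane.coe '' 𝒟 = {z : ℂ | 0 < z.im ∧ |z.re| ≤ 1 / 2 ∧ 1 ≤ ‖z‖} := by
    rw [coe_fd]
    ext z
    simp only [Set.mem_ofPred_eq]
    tauto
  rw [← e, ← Set.inter_eq_self_of_subset_left (Set.image_subset_range UpperHalfPlane.coe 𝒟),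
    ← Measure.restrict_restrict' measurableEmbedding_coe.measurableSet_range,
    ← hmp.setLIntegral_comp_emb measurableEmbedding_coe]
  exact lintegral_congr fun z => h z

lemma norm_one {U : ℂ → ℂ} {T : ℝ} (hU : IsHeckeMaass U T) :
    Measurable (fun z : ℍ => ENNReal.ofReal (‖U z‖ ^ 2)) ∧ ∫⁻ z in 𝒟, ENNReal.ofReal (‖U (z : ℍ)‖ ^ 2) = 1 := by
  have hc : Continuous fun z : ℍ => U z :=
    hU.1.continuousOn.comp_continuous UpperHalfPlane.continuous_coe fun z => z.im_pos
  have hm : Measurable (fun z : ℍ => ENNReal.ofReal (‖U z‖ ^ 2)) :=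
    (ENNReal.continuous_ofReal.comp (hc.norm.pow 2)).measurable
  refine ⟨hm, ?_⟩
  rw [lint_eq (fun z => ENNReal.ofReal (‖U z‖ ^ 2 / z.im ^ 2)) _ hm]
  · have h1 := hU.2.2.2.2.1
    have hi : Integrable (fun z : ℂ => ‖U z‖ ^ 2 / z.im ^ 2)
        (volume.restrict {z : ℂ | 0 < z.im ∧ |z.re| ≤ 1 / 2 ∧ 1 ≤ ‖z‖}) := by
      by_contra hni
      rw [integral_undef hni] at h1
      exact zero_ne_one h1
    rw [← ofReal_integral_eq_lintegral_ofReal hi (Filter.Eventually.of_forall fun z => by positivity), h1,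
      ENNReal.ofReal_one]
  · intro z
    have hz := z.im_pos
    have e : (((1 / NNReal.mk z.im z.im_pos.le : NNReal) ^ 2 : NNReal) : ℝ≥0∞) = ENNReal.ofReal ((1 / z.im) ^ 2) := by
      rw [ENNReal.ofReal, ENNReal.coe_inj]
      ext
      rw [Real.coe_toNNReal _ (by positivity)]
      simp
    rw [e, ← ENNReal.ofReal_mul (by positivity)]
    congr 1
    rw [UpperHalfPlane.coe_im]
    field_simp

/-- a bound for the eigenvalues of the Hecke operators, for all forms -/
noncomputable def KK (p : ℕ) : ℝ := by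
  classical
  exact if h : p.Prime then (eig p h).choose else 0

lemma KK_nonneg (p : ℕ) : 0 ≤ KK p := by
  unfold KK
  split_ifs with h
  · exact (eig p h).choose_spec.1
  · exact le_rfl

theorem isPer {U : ℂ → ℂ} {T : ℝ} (hU : IsHeckeMaass U T) : Per KK U := by
  refine ⟨fun z hz => (hU.2.1 z hz).1, fun p hp => ?_⟩
  obtain ⟨c, hc⟩ := hU.2.2.2.2.2 p hp.one_le
  have hc' : ∀ z : ℂ, 0 < z.im → U (p * z) + ∑ b ∈ Finset.range p, U ((z + b) / p) = c * U z := by
    intro z hz
    rw [← hc z hz, hp.divisors, Finset.sum_pair hp.one_lt.ne]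
    simp [Nat.div_self hp.pos]
  refine ⟨c, ?_, hc'⟩
  obtain ⟨hm, h1⟩ := norm_one hU
  have e : KK p = (eig p hp).choose := by
    unfold KK
    rw [dif_pos hp]
  rw [e]
  exact (eig p hp).choose_spec.2 U hm (fun g z => invariance hU.2.1 g z) (by rw [h1]; exact one_ne_zero)
    (by rw [h1]; exact ENNReal.one_ne_top) c hc'

end Pool.Agent.N889.SN
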